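import Pool.Agent.H14R3.MB.Props

set_option autoImplicit false

open Finset MeasureTheory

namespace Pool.Agent.H14R3.MB

theorem FIN_cnt (A B : ℕ → Prop) [DecidablePred A] [DecidablePred B] (n₀ N : ℕ)
    (h : ∀ n, n₀ ≤ n → A n → B n) :
    ((range N).filter A).card ≤ n₀ + ((range N).filter B).card := by
  have h1 : (range N).filter A ⊆ range n₀ ∪ (range N).filter B := by
    intro n hn
    rw [Finset.mem_filter] at hn
    rw [Finset.mem_union]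
    by_cases h2 : n < n₀
    · exact Or.inl (Finset.mem_range.2 h2)
    · exact Or.inr (Finset.mem_filter.2 ⟨hn.1, h n (by omega) hn.2⟩)
  have h2 := (Finset.card_le_card h1).trans (Finset.card_union_le _ _)
  rwa [Finset.card_range] at h2

open Classical in
theorem FIN_core (h2 : S_T2) (h3 : S_T3) (κ : ℝ) (N : Set ℕ) (hP : Prop2 κ N) :
    ∀ᵐ t : ℝ, 0 < t → ∀ η : ℝ, 0 < η → ∀ N₀ : ℕ, ∃ N' : ℕ, N₀ ≤ N' ∧ 1 ≤ N' ∧
      (κ - η) * N' ≤ (((range N').filter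
        (fun n => t ∈ {t : ℝ | ⌊Real.exp (((n + 1 : ℕ) : ℝ) * t)⌋₊ ∈ N})).card : ℝ) := by
  apply h3 (fun n => {t : ℝ | ⌊Real.exp (((n + 1 : ℕ) : ℝ) * t)⌋₊ ∈ N}) κ
  · intro n
    have hm : Measurable (fun t : ℝ => ⌊Real.exp (((n + 1 : ℕ) : ℝ) * t)⌋₊) :=
      Nat.measurable_floor.comp (by fun_prop)
    exact hm (MeasurableSet.of_discrete (s := N))
  · intro a b ε ha hab hε
    obtain ⟨n₀, hn₀⟩ := h2 κ N hP a b ε ha hab hε
    exact ⟨n₀, fun n hn => hn₀ (n + 1) (by omega)⟩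

theorem t_FIN (h1 : S_T1) (h4 : S_T4) (h2 : S_T2) (h3 : S_T3) (h6 : S_T6) (h7 : S_T7)
    (h8 : S_T8) : S_FIN := by
  classical
  refine ⟨?_, ?_⟩
  · intro M m ε Λ hε hΛ
    have hK : ∀ j : ℕ, ∃ K : ℝ, 0 < K ∧ Prop2 (1 / 4 - 1 / ((j : ℝ) + 1)) (NP M m ε Λ K) :=
      fun j => h1 M m ε Λ (1 / ((j : ℝ) + 1)) hε hΛ (by positivity)
    choose K hK0 hKP using hK
    have hae := ae_all_iff.2 fun j => FIN_core h2 h3 _ _ (hKP j)
    apply h6
    filter_upwards [hae] with t ht ht0 η hη N₀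
    obtain ⟨j, hj⟩ := exists_nat_one_div_lt (show (0 : ℝ) < η / 3 by positivity)
    obtain ⟨n₀, hn₀⟩ := h7 M m ε Λ (K j) t (hK0 j) ht0
    obtain ⟨N, hN1, hN2, hN3⟩ := ht j ht0 (η / 3) (by positivity) (max N₀ ⌈3 * (n₀ : ℝ) / η⌉₊)
    refine ⟨N, (le_max_left _ _).trans hN1, hN2, ?_⟩
    have h5 : 3 * (n₀ : ℝ) / η ≤ N := Nat.ceil_le.1 ((le_max_right _ _).trans hN1)
    rw [div_le_iff₀ hη] at h5
    have h9 := FIN_cnt (fun n => t ∈ {t : ℝ | ⌊Real.exp (((n + 1 : ℕ) : ℝ) * t)⌋₊ ∈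
      NP M m ε Λ (K j)}) (fun n => M ≤ ((Icc ⌈Real.exp t ^ (n + 1)⌉₊
        ⌊Real.exp t ^ (n + 1) + Nat.nth Nat.Prime n⌋₊).filter
          (fun p => IsoCluster m ε Λ p)).card) n₀ N (fun n hn hA => hn₀ n hn hA)
    have h10 : ((((range N).filter (fun n => t ∈ {t : ℝ | ⌊Real.exp (((n + 1 : ℕ) : ℝ) * t)⌋₊ ∈
      NP M m ε Λ (K j)})).card : ℕ) : ℝ) ≤ (n₀ : ℝ) + (((range N).filter (fun n => M ≤
        ((Icc ⌈Real.exp t ^ (n + 1)⌉₊ ⌊Real.exp t ^ (n + 1) + Nat.nth Nat.Prime n⌋₊).filter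
          (fun p => IsoCluster m ε Λ p)).card)).card : ℝ) := by exact_mod_cast h9
    have hN0 : (0 : ℝ) ≤ N := Nat.cast_nonneg _
    have h11 : 1 / ((j : ℝ) + 1) * N ≤ η / 3 * N := mul_le_mul_of_nonneg_right hj.le hN0
    have h12 := hN3.trans h10
    nlinarith
  · intro C
    obtain ⟨δ, hδ, hP⟩ := h4 (max C 0)
    refine ⟨δ / 2, by positivity, ?_⟩
    have hae := FIN_core h2 h3 _ _ hP
    apply h6
    filter_upwards [hae] with t ht ht0 N₀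
    obtain ⟨n₀, hn₀⟩ := h8 (max C 0) t ht0 (le_max_right _ _)
    obtain ⟨N, hN1, hN2, hN3⟩ := ht ht0 (δ / 4) (by positivity) (max N₀ ⌈4 * (n₀ : ℝ) / δ⌉₊)
    refine ⟨N, (le_max_left _ _).trans hN1, hN2, ?_⟩
    have h5 : 4 * (n₀ : ℝ) / δ ≤ N := Nat.ceil_le.1 ((le_max_right _ _).trans hN1)
    rw [div_le_iff₀ hδ] at h5
    have h9 := FIN_cnt (fun n => t ∈ {t : ℝ | ⌊Real.exp (((n + 1 : ℕ) : ℝ) * t)⌋₊ ∈
      NF (max C 0)}) (fun n => ∀ p : ℕ, p.Prime → Real.exp t ^ (n + 1) ≤ p →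
        (p : ℝ) ≤ Real.exp t ^ (n + 1) + C * Real.log (Real.exp t ^ (n + 1)) → False) n₀ N
      (by
        intro n hn hA p hp h10 h11
        refine hn₀ n hn hA p hp h10 (h11.trans ?_)
        have h12 : 0 ≤ Real.log (Real.exp t ^ (n + 1)) := by
          apply Real.log_nonneg
          exact one_le_pow₀ (Real.one_le_exp ht0.le)
        have h13 := mul_le_mul_of_nonneg_right (le_max_left C 0) h12
        linarith)
    have h10 : ((((range N).filter (fun n => t ∈ {t : ℝ | ⌊Real.exp (((n + 1 : ℕ) : ℝ) * t)⌋₊ ∈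
      NF (max C 0)})).card : ℕ) : ℝ) ≤ (n₀ : ℝ) + (((range N).filter (fun n => ∀ p : ℕ,
        p.Prime → Real.exp t ^ (n + 1) ≤ p → (p : ℝ) ≤ Real.exp t ^ (n + 1) +
          C * Real.log (Real.exp t ^ (n + 1)) → False)).card : ℝ) := by exact_mod_cast h9
    have h12 := hN3.trans h10
    nlinarith

end Pool.Agent.H14R3.MB
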