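import Mathlib

/-! Metric theorem on primes just above the powers of almost every base: statements. -/

set_option autoImplicit false

open Finset MeasureTheory

namespace Pool.Agent.H14R3.MB

/-- `p` is a prime, the interval `[p, p + ε log p]` contains at least `m` primes, and every prime
`q` with `|q - p| ≤ Λ log p` lies in this interval -/
def IsoCluster (m : ℕ) (ε Λ : ℝ) (p : ℕ) : Prop :=
  p.Prime ∧ m ≤ ((Icc p (p + ⌊ε * Real.log p⌋₊)).filter Nat.Prime).card ∧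
    ∀ q : ℕ, q.Prime → |(q : ℝ) - p| ≤ Λ * Real.log p → p ≤ q ∧ (q : ℝ) ≤ p + ε * Real.log p

open Classical in
/-- integers `n` such that `(n, n + K log n]` contains at least `M` primes beginning isolated
clusters -/
def NP (M m : ℕ) (ε Λ K : ℝ) : Set ℕ :=
  {n | M ≤ ((Ioc n (n + ⌊K * Real.log n⌋₊)).filter (fun p => IsoCluster m ε Λ p)).card}

/-- integers `n` such that no prime lies in `[n, n + 1 + C log (n + 1)]` -/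
def NF (C : ℝ) : Set ℕ :=
  {n | ∀ p : ℕ, p.Prime → n ≤ p → (p : ℝ) ≤ n + 1 + C * Real.log (n + 1) → False}

open Classical in
/-- proportion at least `κ` of all dyadic blocks -/
def Prop2 (κ : ℝ) (N : Set ℕ) : Prop :=
  ∃ X₀ : ℕ, 1 ≤ X₀ ∧ ∀ X : ℕ, X₀ ≤ X → κ * X ≤ (((Ico X (2 * X)).filter (fun n => n ∈ N)).card : ℝ)

/-- T1 (from `Pool.Agent.H474R4.QB.final`) -/
def S_T1 : Prop := ∀ (M m : ℕ) (ε Λ η : ℝ), 0 < ε → 0 < Λ → 0 < η → ∃ K : ℝ, 0 < K ∧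
  Prop2 (1 / 4 - η) (NP M m ε Λ K)

/-- T4 (from `Pool.Agent.H474R3.AA` , the theorem of type `PolyAA`, with `f = X`) -/
def S_T4 : Prop := ∀ C : ℝ, ∃ δ : ℝ, 0 < δ ∧ Prop2 δ (NF C)

open Classical in
/-- T2a (discrete logarithmic average) -/
def S_T2a : Prop := ∀ (κ : ℝ) (N : Set ℕ), Prop2 κ N → ∃ (C : ℝ) (A₀ : ℕ), 1 ≤ A₀ ∧
  ∀ A B : ℕ, A₀ ≤ A → A ≤ B →
    κ * Real.log ((B : ℝ) / A) - C ≤ ∑ k ∈ (Ico A B).filter (fun k => k ∈ N), 1 / ((k : ℝ) + 1)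

open Classical in
/-- T2b (logarithmic sums and measure) -/
def S_T2b : Prop := ∀ (N : Set ℕ) (n : ℕ) (a b : ℝ) (A B : ℕ), 0 < n → 1 ≤ A →
  Real.exp (n * a) ≤ A → (B : ℝ) ≤ Real.exp (n * b) →
  ENNReal.ofReal ((1 / (n : ℝ)) * ∑ k ∈ (Ico A B).filter (fun k => k ∈ N), 1 / ((k : ℝ) + 1)) ≤
    volume (Set.Icc a b ∩ {t : ℝ | ⌊Real.exp (n * t)⌋₊ ∈ N})

/-- T2c: proportion at least `κ` of dyadic blocks gives proportion at least `κ - ε` of every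
interval of exponents -/
def S_T2 : Prop := ∀ (κ : ℝ) (N : Set ℕ), Prop2 κ N → ∀ a b ε : ℝ, 0 < a → a < b → 0 < ε →
  ∃ n₀ : ℕ, ∀ n : ℕ, n₀ ≤ n → ENNReal.ofReal ((κ - ε) * (b - a)) ≤
    volume (Set.Icc a b ∩ {t : ℝ | ⌊Real.exp (n * t)⌋₊ ∈ N})

open Classical in
/-- T3 (abstract density lemma, Lebesgue density theorem) -/
def S_T3 : Prop := ∀ (E : ℕ → Set ℝ) (κ : ℝ), (∀ n, MeasurableSet (E n)) →
  (∀ a b ε : ℝ, 0 < a → a < b → 0 < ε → ∃ n₀ : ℕ, ∀ n : ℕ, n₀ ≤ n →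
    ENNReal.ofReal ((κ - ε) * (b - a)) ≤ volume (Set.Icc a b ∩ E n)) →
  ∀ᵐ t : ℝ, 0 < t → ∀ η : ℝ, 0 < η → ∀ N₀ : ℕ, ∃ N : ℕ, N₀ ≤ N ∧ 1 ≤ N ∧
    (κ - η) * N ≤ (((range N).filter (fun n => t ∈ E n)).card : ℝ)

/-- T5: the `n`-th prime is larger than every multiple of `n` -/
def S_T5 : Prop := ∀ K : ℝ, ∃ n₀ : ℕ, ∀ n : ℕ, n₀ ≤ n → K * ((n : ℝ) + 1) ≤ Nat.nth Nat.Prime n

/-- T6: almost every exponent gives almost every base -/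
def S_T6 : Prop := ∀ P : ℝ → Prop, (∀ᵐ t : ℝ, 0 < t → P (Real.exp t)) → ∀ᵐ α : ℝ, 1 < α → P α

open Classical in
/-- T7: from exponents to windows above powers (clusters) -/
def S_T7 : Prop := ∀ (M m : ℕ) (ε Λ K t : ℝ), 0 < K → 0 < t → ∃ n₀ : ℕ, ∀ n : ℕ, n₀ ≤ n →
  ⌊Real.exp (((n + 1 : ℕ) : ℝ) * t)⌋₊ ∈ NP M m ε Λ K →
    M ≤ ((Icc ⌈Real.exp t ^ (n + 1)⌉₊ ⌊Real.exp t ^ (n + 1) + Nat.nth Nat.Prime n⌋₊).filter
      (fun p => IsoCluster m ε Λ p)).card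

/-- T8: from exponents to windows above powers (no primes) -/
def S_T8 : Prop := ∀ (C t : ℝ), 0 < t → 0 ≤ C → ∃ n₀ : ℕ, ∀ n : ℕ, n₀ ≤ n →
  ⌊Real.exp (((n + 1 : ℕ) : ℝ) * t)⌋₊ ∈ NF C →
    ∀ p : ℕ, p.Prime → Real.exp t ^ (n + 1) ≤ p →
      (p : ℝ) ≤ Real.exp t ^ (n + 1) + C * Real.log (Real.exp t ^ (n + 1)) → False

open Classical in
/-- the final theorem -/
def S_FIN : Prop :=
  (∀ (M m : ℕ) (ε Λ : ℝ), 0 < ε → 0 < Λ → ∀ᵐ α : ℝ, 1 < α → ∀ η : ℝ, 0 < η →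
    ∀ N₀ : ℕ, ∃ N : ℕ, N₀ ≤ N ∧ 1 ≤ N ∧ (1 / 4 - η) * N ≤
      (((range N).filter (fun n => M ≤ ((Icc ⌈α ^ (n + 1)⌉₊
        ⌊α ^ (n + 1) + Nat.nth Nat.Prime n⌋₊).filter (fun p => IsoCluster m ε Λ p)).card)).card : ℝ)) ∧
  (∀ C : ℝ, ∃ δ : ℝ, 0 < δ ∧ ∀ᵐ α : ℝ, 1 < α → ∀ N₀ : ℕ, ∃ N : ℕ, N₀ ≤ N ∧ 1 ≤ N ∧ δ * N ≤
      (((range N).filter (fun n => ∀ p : ℕ, p.Prime → α ^ (n + 1) ≤ p →
        (p : ℝ) ≤ α ^ (n + 1) + C * Real.log (α ^ (n + 1)) → False)).card : ℝ))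

end Pool.Agent.H14R3.MB
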