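import Pool.Agent.H14R3.MB.Props

set_option autoImplicit false

open Finset

namespace Pool.Agent.H14R3.MB

open Classical in
theorem t_T1 (h : ∀ (m : ℕ) (ε Λ η : ℝ), 0 < ε → 0 < Λ → 0 < η → ∃ c : ℝ, 0 < c ∧
    ∃ K₀ : ℝ, ∀ K : ℝ, K₀ ≤ K → ∃ X₀ : ℕ, ∀ X : ℕ, X₀ ≤ X →
    (1 / 4 - η) * X ≤ (((Ico X (2 * X)).filter (fun n => c * K ≤
      (((Ioc n (n + ⌊K * Real.log X⌋₊)).filter (fun p => IsoCluster m ε Λ p)).card : ℝ))).card :
        ℝ)) : S_T1 := by
  intro M m ε Λ η hε hΛ hη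
  obtain ⟨c, hc, K₀, hK⟩ := h m ε Λ η hε hΛ hη
  set K : ℝ := max (max K₀ (M / c)) 1 with hKd
  have h1 : K₀ ≤ K := (le_max_left _ _).trans (le_max_left _ _)
  have h2 : (M : ℝ) / c ≤ K := (le_max_right _ _).trans (le_max_left _ _)
  have h3 : (1 : ℝ) ≤ K := le_max_right _ _
  obtain ⟨X₀, hX⟩ := hK K h1
  refine ⟨K, by linarith, max X₀ 1, le_max_right _ _, fun X hX0 => ?_⟩
  have hX1 : 1 ≤ X := (le_max_right _ _).trans hX0
  refine (hX X ((le_max_left _ _).trans hX0)).trans ?_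
  have : ((Ico X (2 * X)).filter (fun n => c * K ≤
      (((Ioc n (n + ⌊K * Real.log X⌋₊)).filter (fun p => IsoCluster m ε Λ p)).card : ℝ))).card ≤
      ((Ico X (2 * X)).filter (fun n => n ∈ NP M m ε Λ K)).card := by
    apply Finset.card_le_card
    intro n hn
    rw [mem_filter, mem_Ico] at hn
    rw [mem_filter, mem_Ico]
    refine ⟨hn.1, ?_⟩
    show M ≤ ((Ioc n (n + ⌊K * Real.log n⌋₊)).filter (fun p => IsoCluster m ε Λ p)).card
    have h4 : (M : ℝ) ≤ c * K := by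
      rw [div_le_iff₀ hc] at h2
      linarith
    have h5 : (M : ℝ) ≤
        (((Ioc n (n + ⌊K * Real.log X⌋₊)).filter (fun p => IsoCluster m ε Λ p)).card : ℝ) :=
      h4.trans hn.2
    have h6 : M ≤ ((Ioc n (n + ⌊K * Real.log X⌋₊)).filter (fun p => IsoCluster m ε Λ p)).card := by
      exact_mod_cast h5
    refine h6.trans (Finset.card_le_card (Finset.filter_subset_filter _ ?_))
    apply Finset.Ioc_subset_Ioc_right
    have h7 : Real.log X ≤ Real.log n := by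
      apply Real.log_le_log
      · exact_mod_cast hX1
      · exact_mod_cast hn.1.1
    have : ⌊K * Real.log X⌋₊ ≤ ⌊K * Real.log n⌋₊ := Nat.floor_mono (by nlinarith)
    omega
  exact_mod_cast this

end Pool.Agent.H14R3.MB
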