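import Pool.Agent.H14R3.MB.Props

/-! T2: proportions of intervals of exponents. -/

set_option autoImplicit false

open Finset MeasureTheory

namespace Pool.Agent.H14R3.MB

theorem t_T2 (h1 : S_T2a) (h2 : S_T2b) : S_T2 := by
  classical
  intro κ N hN a b ε ha hab hε
  by_cases hκ : κ - ε ≤ 0
  · refine ⟨0, fun n _ => ?_⟩
    have h3 : (κ - ε) * (b - a) ≤ 0 := mul_nonpos_of_nonpos_of_nonneg hκ (by linarith)
    rw [ENNReal.ofReal_of_nonpos h3]
    exact zero_le
  push Not at hκ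
  obtain ⟨C, A₀, hA₀, hC⟩ := h1 κ N hN
  have hba : 0 < b - a := by linarith
  have hb : 0 < b := by linarith
  have hκ0 : 0 < κ := by linarith
  have hε2 : 0 < ε * (b - a) := mul_pos hε hba
  obtain ⟨s, hs⟩ : ∃ s : ℝ, s = (A₀ : ℝ) / a + 1 / b + 3 / (b - a) +
      (3 * κ + |C|) / (ε * (b - a)) + 1 := ⟨_, rfl⟩
  have p1 : 0 ≤ (A₀ : ℝ) / a := by positivity
  have p2 : 0 ≤ 1 / b := by positivity
  have p3 : 0 ≤ 3 / (b - a) := by positivity
  have p4 : 0 ≤ (3 * κ + |C|) / (ε * (b - a)) := by positivity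
  refine ⟨⌈s⌉₊, fun n hn => ?_⟩
  have hns : s ≤ n := (Nat.le_ceil s).trans (by exact_mod_cast hn)
  have q1 : (A₀ : ℝ) ≤ n * a := (div_le_iff₀ ha).1 (by linarith)
  have q2 : 1 ≤ n * b := (div_le_iff₀ hb).1 (by linarith)
  have q3 : 3 ≤ n * (b - a) := (div_le_iff₀ hba).1 (by linarith)
  have q4 : 3 * κ + |C| ≤ n * (ε * (b - a)) := (div_le_iff₀ hε2).1 (by linarith)
  have hn1 : (1 : ℝ) ≤ n := by linarith
  have hn0 : (0 : ℝ) < n := by linarith
  have hn' : 0 < n := by exact_mod_cast hn0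
  obtain ⟨A, hA⟩ : ∃ A : ℕ, A = ⌈Real.exp (n * a)⌉₊ := ⟨_, rfl⟩
  obtain ⟨B, hB⟩ : ∃ B : ℕ, B = ⌊Real.exp (n * b)⌋₊ := ⟨_, rfl⟩
  have ea : Real.exp (n * a) ≤ A := hA ▸ Nat.le_ceil _
  have ea1 : (A : ℝ) < Real.exp (n * a) + 1 := hA ▸ Nat.ceil_lt_add_one (Real.exp_pos _).le
  have eb : (B : ℝ) ≤ Real.exp (n * b) := hB ▸ Nat.floor_le (Real.exp_pos _).le
  have eb1 : Real.exp (n * b) < B + 1 := hB ▸ Nat.lt_floor_add_one _
  have f1 : n * a + 1 ≤ Real.exp (n * a) := Real.add_one_le_exp _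
  have f2 : n * b + 1 ≤ Real.exp (n * b) := Real.add_one_le_exp _
  have f3 : (3 : ℝ) + 1 ≤ Real.exp 3 := Real.add_one_le_exp _
  have hna : 0 < n * a := mul_pos hn0 ha
  have hA1 : (1 : ℝ) ≤ A := by linarith
  have hA1' : 1 ≤ A := by exact_mod_cast hA1
  have hA0A : A₀ ≤ A := by
    have : (A₀ : ℝ) ≤ A := by linarith
    exact_mod_cast this
  have g1 : Real.exp (n * (b - a) - 3) * A ≤ B := by
    have g2 : Real.exp (n * (b - a) - 3) * Real.exp (n * a) = Real.exp (n * b - 3) := by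
      rw [← Real.exp_add]
      congr 1
      ring
    have g3 : Real.exp (n * b - 3) * Real.exp 3 = Real.exp (n * b) := by
      rw [← Real.exp_add]
      congr 1
      ring
    have g4 : Real.exp (n * b - 3) * 4 ≤ Real.exp (n * b) := by
      rw [← g3]
      exact mul_le_mul_of_nonneg_left (by linarith) (Real.exp_pos _).le
    have g5 : Real.exp (n * (b - a) - 3) * A ≤
        Real.exp (n * (b - a) - 3) * (2 * Real.exp (n * a)) :=
      mul_le_mul_of_nonneg_left (by linarith) (Real.exp_pos _).le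
    have g6 : Real.exp (n * (b - a) - 3) * (2 * Real.exp (n * a)) =
        2 * Real.exp (n * b - 3) := by
      rw [← g2]
      ring
    linarith
  have hApos : (0 : ℝ) < A := by linarith
  have hE1 : 1 ≤ Real.exp (n * (b - a) - 3) := Real.one_le_exp (by linarith)
  have hAB : (A : ℝ) ≤ B := by nlinarith
  have hAB' : A ≤ B := by exact_mod_cast hAB
  have hlog : n * (b - a) - 3 ≤ Real.log ((B : ℝ) / A) := by
    rw [Real.le_log_iff_exp_le (div_pos (by linarith) hApos), le_div_iff₀ hApos]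
    exact g1
  have hsum := hC A B hA0A hAB'
  refine le_trans (ENNReal.ofReal_le_ofReal ?_) (h2 N n a b A B hn' hA1' ea eb)
  rw [one_div, inv_mul_eq_div, le_div_iff₀ hn0]
  have k1 : κ * (n * (b - a) - 3) ≤ κ * Real.log ((B : ℝ) / A) :=
    mul_le_mul_of_nonneg_left hlog hκ0.le
  have k2 := le_abs_self C
  nlinarith

end Pool.Agent.H14R3.MB
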