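import Pool.Agent.H14R3.MB.Props

set_option autoImplicit false

open Finset MeasureTheory

namespace Pool.Agent.H14R3.MB

theorem T2a_log (A Y : ℕ) : Real.log ((Y : ℝ) + 1) - Real.log ((A : ℝ) + 1) ≤
    ∑ X ∈ Ico A Y, 1 / ((X : ℝ) + 1) := by
  rcases le_total Y A with h | h
  · rw [Ico_eq_empty (by omega), sum_empty]
    have h1 : (Y : ℝ) ≤ A := by exact_mod_cast h
    have : Real.log ((Y : ℝ) + 1) ≤ Real.log ((A : ℝ) + 1) :=
      Real.log_le_log (by positivity) (by linarith)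
    linarith
  · induction Y, h using Nat.le_induction with
    | base => simp
    | succ Y hY ih =>
      rw [sum_Ico_succ_top hY]
      have h1 : Real.log ((Y : ℝ) + 1 + 1) - Real.log ((Y : ℝ) + 1) ≤ 1 / ((Y : ℝ) + 1) := by
        rw [← Real.log_div (by positivity) (by positivity)]
        have := Real.log_le_sub_one_of_pos
          (show (0 : ℝ) < ((Y : ℝ) + 1 + 1) / ((Y : ℝ) + 1) by positivity)
        have e : ((Y : ℝ) + 1 + 1) / ((Y : ℝ) + 1) - 1 = 1 / ((Y : ℝ) + 1) := by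
          field_simp
          ring
        linarith
      push_cast
      linarith

theorem T2a_tel (a b : ℕ) (ha : 1 ≤ a) (hab : a ≤ b) :
    ∑ X ∈ Ico a b, 1 / ((X : ℝ) * ((X : ℝ) + 1)) = 1 / (a : ℝ) - 1 / (b : ℝ) := by
  induction b, hab using Nat.le_induction with
  | base => simp
  | succ b hb ih =>
    rw [sum_Ico_succ_top hb, ih]
    have : (0 : ℝ) < b := by exact_mod_cast (by omega : 0 < b)
    have ha' : (0 : ℝ) < a := by exact_mod_cast (by omega : 0 < a)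
    push_cast
    field_simp
    ring

open Classical in
theorem T2a_main (κ : ℝ) (N : Set ℕ) (X₀ : ℕ) (hX₀ : 1 ≤ X₀)
    (h : ∀ X : ℕ, X₀ ≤ X → κ * X ≤ (((Ico X (2 * X)).filter (fun n => n ∈ N)).card : ℝ))
    (A B : ℕ) (hA : X₀ ≤ A) :
    κ * ∑ X ∈ Ico A (B / 2), 1 / ((X : ℝ) + 1) ≤
      ∑ k ∈ (Ico A B).filter (fun k => k ∈ N), 1 / ((k : ℝ) + 1) := by
  have h1 : κ * ∑ X ∈ Ico A (B / 2), 1 / ((X : ℝ) + 1) ≤
      ∑ X ∈ Ico A (B / 2), ∑ k ∈ (Ico A B).filter (fun k => k ∈ N),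
        (if X ≤ k ∧ k < 2 * X then 1 / ((X : ℝ) * ((X : ℝ) + 1)) else 0) := by
    rw [mul_sum]
    refine sum_le_sum fun X hX => ?_
    rw [mem_Ico] at hX
    have hX0 : (0 : ℝ) < X := by exact_mod_cast (by omega : 0 < X)
    have e1 : ∑ k ∈ (Ico A B).filter (fun k => k ∈ N),
        (if X ≤ k ∧ k < 2 * X then 1 / ((X : ℝ) * ((X : ℝ) + 1)) else 0) =
        (((Ico X (2 * X)).filter (fun n => n ∈ N)).card : ℝ) * (1 / ((X : ℝ) * ((X : ℝ) + 1))) := by
      rw [← sum_filter, sum_const, nsmul_eq_mul]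
      congr 3
      ext k
      simp only [mem_filter, mem_Ico]
      constructor
      · rintro ⟨⟨-, hk⟩, hk2⟩
        exact ⟨hk2, hk⟩
      · rintro ⟨hk2, hk⟩
        exact ⟨⟨by omega, hk⟩, hk2⟩
    rw [e1]
    have e2 : κ * (1 / ((X : ℝ) + 1)) = (κ * X) * (1 / ((X : ℝ) * ((X : ℝ) + 1))) := by
      field_simp
    rw [e2]
    exact mul_le_mul_of_nonneg_right (h X (by omega)) (by positivity)
  refine h1.trans ?_
  rw [sum_comm]
  refine sum_le_sum fun k hk => ?_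
  rw [← sum_filter]
  have h2 : ∑ X ∈ (Ico A (B / 2)).filter (fun X => X ≤ k ∧ k < 2 * X),
      1 / ((X : ℝ) * ((X : ℝ) + 1)) ≤ ∑ X ∈ Ico (k / 2 + 1) (k + 1),
      1 / ((X : ℝ) * ((X : ℝ) + 1)) := by
    refine sum_le_sum_of_subset_of_nonneg (fun X hX => ?_) fun X _ _ => by positivity
    simp only [mem_filter, mem_Ico] at hX ⊢
    omega
  refine h2.trans ?_
  rw [T2a_tel _ _ (by omega) (by omega)]
  have h3 : ((k : ℝ) + 1) / 2 ≤ ((k / 2 + 1 : ℕ) : ℝ) := by
    have : k + 1 ≤ 2 * (k / 2 + 1) := by omega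
    have : ((k : ℝ) + 1) ≤ 2 * ((k / 2 + 1 : ℕ) : ℝ) := by exact_mod_cast this
    linarith
  have h4 : 1 / ((k / 2 + 1 : ℕ) : ℝ) ≤ 1 / (((k : ℝ) + 1) / 2) :=
    one_div_le_one_div_of_le (by positivity) h3
  have h5 : 1 / (((k : ℝ) + 1) / 2) = 1 / ((k : ℝ) + 1) + 1 / ((k : ℝ) + 1) := by
    field_simp
    norm_num
  push_cast at h4 ⊢
  linarith

theorem t_T2a : S_T2a := by
  classical
  intro κ N hN
  obtain ⟨X₀, hX₀, h⟩ := hN
  have hpos : ∀ A B : ℕ, (0 : ℝ) ≤ ∑ k ∈ (Ico A B).filter (fun k => k ∈ N), 1 / ((k : ℝ) + 1) :=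
    fun A B => sum_nonneg fun k _ => by positivity
  rcases le_or_gt κ 0 with hκ | hκ
  · refine ⟨0, 1, le_rfl, fun A B hA hAB => ?_⟩
    have hA' : (0 : ℝ) < A := by exact_mod_cast hA
    have h1 : 0 ≤ Real.log ((B : ℝ) / A) := by
      apply Real.log_nonneg
      rw [le_div_iff₀ hA', one_mul]
      exact_mod_cast hAB
    have h2 := hpos A B
    have h3 : κ * Real.log ((B : ℝ) / A) ≤ 0 := mul_nonpos_of_nonpos_of_nonneg hκ h1
    convert (show κ * Real.log ((B : ℝ) / A) - 0 ≤ _ from by linarith) using 2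
  · refine ⟨κ * Real.log 4, X₀, hX₀, fun A B hA hAB => ?_⟩
    have hA1 : 1 ≤ A := by omega
    have hA' : (1 : ℝ) ≤ A := by exact_mod_cast hA1
    have hB' : (1 : ℝ) ≤ B := by exact_mod_cast (by omega : 1 ≤ B)
    have h1 := T2a_main κ N X₀ hX₀ h A B hA
    have h2 := T2a_log A (B / 2)
    have h3 : (B : ℝ) / 2 ≤ ((B / 2 : ℕ) : ℝ) + 1 := by
      have : B ≤ 2 * (B / 2) + 2 := by omega
      have : (B : ℝ) ≤ 2 * ((B / 2 : ℕ) : ℝ) + 2 := by exact_mod_cast this
      linarith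
    have h4 : Real.log ((B : ℝ) / 2) ≤ Real.log (((B / 2 : ℕ) : ℝ) + 1) :=
      Real.log_le_log (by positivity) h3
    have h5 : Real.log ((A : ℝ) + 1) ≤ Real.log (2 * A) :=
      Real.log_le_log (by positivity) (by linarith)
    rw [Real.log_div (by positivity) (by norm_num)] at h4
    rw [Real.log_mul (by norm_num) (by positivity)] at h5
    have h6 : Real.log 4 = Real.log 2 + Real.log 2 := by
      rw [← Real.log_mul (by norm_num) (by norm_num)]
      norm_num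
    have h7 : Real.log ((B : ℝ) / A) - Real.log 4 ≤ ∑ X ∈ Ico A (B / 2), 1 / ((X : ℝ) + 1) := by
      rw [Real.log_div (by positivity) (by positivity)]
      linarith
    have h8 := mul_le_mul_of_nonneg_left h7 hκ.le
    rw [mul_sub] at h8
    exact h8.trans h1

end Pool.Agent.H14R3.MB
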