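import Pool.Agent.H14R3.MB.Props

/-! T2b: logarithmic sums and measure. -/

set_option autoImplicit false

open Finset MeasureTheory

namespace Pool.Agent.H14R3.MB

theorem T2b_floor (n : ℕ) (hn : 0 < n) (k : ℕ) (hk : 1 ≤ k) (t : ℝ)
    (ht : t ∈ Set.Ico (Real.log k / n) (Real.log ((k : ℝ) + 1) / n)) :
    Real.log k ≤ n * t ∧ n * t < Real.log ((k : ℝ) + 1) ∧ ⌊Real.exp (n * t)⌋₊ = k := by
  have hn' : (0 : ℝ) < n := by exact_mod_cast hn
  have hk' : (0 : ℝ) < k := by exact_mod_cast hk
  have h1 : Real.log k ≤ n * t := by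
    have := ht.1
    rw [div_le_iff₀ hn'] at this
    linarith
  have h2 : n * t < Real.log ((k : ℝ) + 1) := by
    have := ht.2
    rw [lt_div_iff₀ hn'] at this
    linarith
  refine ⟨h1, h2, ?_⟩
  rw [Nat.floor_eq_iff (Real.exp_pos _).le]
  constructor
  · rw [← Real.log_le_iff_le_exp hk']
    exact h1
  · rw [← Real.lt_log_iff_exp_lt (by linarith)]
    exact h2

open Classical in
theorem t_T2b : S_T2b := by
  intro N n a b A B hn hA hAa hBb
  have hn' : (0 : ℝ) < n := by exact_mod_cast hn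
  set S : Finset ℕ := (Finset.Ico A B).filter (fun k => k ∈ N) with hS
  set J : ℕ → Set ℝ := fun k => Set.Ico (Real.log k / n) (Real.log ((k : ℝ) + 1) / n) with hJ
  have hSk : ∀ k ∈ S, A ≤ k ∧ k < B ∧ k ∈ N := by
    intro k hk
    rw [hS, Finset.mem_filter, Finset.mem_Ico] at hk
    exact ⟨hk.1.1, hk.1.2, hk.2⟩
  have hsub : (⋃ k ∈ S, J k) ⊆ Set.Icc a b ∩ {t : ℝ | ⌊Real.exp (n * t)⌋₊ ∈ N} := by
    intro t ht
    simp only [Set.mem_iUnion] at ht
    obtain ⟨k, hk, htk⟩ := ht
    obtain ⟨h1, h2, h3⟩ := hSk k hk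
    obtain ⟨g1, g2, g3⟩ := T2b_floor n hn k (by omega) t htk
    have hA0 : (0 : ℝ) < A := by exact_mod_cast hA
    have hAk : (A : ℝ) ≤ k := by exact_mod_cast h1
    have hkB : (k : ℝ) + 1 ≤ B := by exact_mod_cast h2
    have e1 : (n : ℝ) * a ≤ Real.log A := by
      rw [Real.le_log_iff_exp_le hA0]; exact hAa
    have e2 : Real.log A ≤ Real.log k := Real.log_le_log hA0 hAk
    have e3 : Real.log ((k : ℝ) + 1) ≤ Real.log B := Real.log_le_log (by linarith) hkB
    have e4 : Real.log B ≤ n * b := by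
      rw [Real.log_le_iff_le_exp (by linarith)]; exact hBb
    refine ⟨⟨?_, ?_⟩, ?_⟩
    · exact le_of_mul_le_mul_left (by linarith) hn'
    · exact le_of_mul_le_mul_left (by linarith : (n : ℝ) * t ≤ n * b) hn'
    · show ⌊Real.exp (n * t)⌋₊ ∈ N
      rw [g3]; exact h3
  have hdis : Set.PairwiseDisjoint (↑S : Set ℕ) J := by
    intro k hk l hl hkl
    rw [Function.onFun, Set.disjoint_left]
    intro t h1 h2
    have g1 := (T2b_floor n hn k (le_trans hA (hSk k hk).1) t h1).2.2
    have g2 := (T2b_floor n hn l (le_trans hA (hSk l hl).1) t h2).2.2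
    exact hkl (g1.symm.trans g2)
  calc ENNReal.ofReal ((1 / (n : ℝ)) * ∑ k ∈ S, 1 / ((k : ℝ) + 1))
      = ∑ k ∈ S, ENNReal.ofReal ((1 / (n : ℝ)) * (1 / ((k : ℝ) + 1))) := by
        rw [Finset.mul_sum, ENNReal.ofReal_sum_of_nonneg]
        intro k _
        positivity
    _ ≤ ∑ k ∈ S, volume (J k) := by
        refine Finset.sum_le_sum fun k hk => ?_
        simp only [hJ, Real.volume_Ico]
        apply ENNReal.ofReal_le_ofReal
        have hk1 : (0 : ℝ) < k := by
          have := le_trans hA (hSk k hk).1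
          exact_mod_cast this
        have h1 := Real.one_sub_inv_le_log_of_pos (x := ((k : ℝ) + 1) / k) (by positivity)
        rw [Real.log_div (by positivity) (by positivity)] at h1
        have h2 : (1 : ℝ) - (((k : ℝ) + 1) / k)⁻¹ = 1 / ((k : ℝ) + 1) := by
          field_simp
          ring
        rw [h2] at h1
        rw [← sub_div, one_div, inv_mul_eq_div]
        gcongr
    _ = volume (⋃ k ∈ S, J k) := by
        rw [measure_biUnion_finset hdis]
        intro k _
        exact measurableSet_Ico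
    _ ≤ _ := measure_mono hsub

end Pool.Agent.H14R3.MB
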