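import Pool.Agent.H14R3.MB.Props

set_option autoImplicit false

open Finset MeasureTheory Filter Topology

namespace Pool.Agent.H14R3.MB

open Classical in
noncomputable def T3cnt (E : ℕ → Set ℝ) (N : ℕ) (t : ℝ) : ℝ :=
  (((range N).filter (fun n => t ∈ E n)).card : ℝ)

theorem T3cnt_eq (E : ℕ → Set ℝ) (N : ℕ) (t : ℝ) :
    T3cnt E N t = ∑ n ∈ range N, (E n).indicator (fun _ => (1 : ℝ)) t := by
  classical
  unfold T3cnt
  rw [Finset.card_filter]
  push_cast
  refine Finset.sum_congr rfl fun n _ => ?_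
  simp [Set.indicator_apply]

theorem T3cnt_le (E : ℕ → Set ℝ) (N : ℕ) (t : ℝ) : T3cnt E N t ≤ N := by
  classical
  unfold T3cnt
  have := Finset.card_filter_le (range N) (fun n => t ∈ E n)
  rw [Finset.card_range] at this
  exact_mod_cast this

theorem T3cnt_meas {E : ℕ → Set ℝ} (hE : ∀ n, MeasurableSet (E n)) (N : ℕ) :
    Measurable (T3cnt E N) := by
  have : T3cnt E N = fun t => ∑ n ∈ range N, (E n).indicator (fun _ => (1 : ℝ)) t :=
    funext fun t => T3cnt_eq E N t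
  rw [this]
  exact Finset.measurable_sum _ fun n _ => measurable_const.indicator (hE n)

theorem T3_int {E : ℕ → Set ℝ} (hE : ∀ n, MeasurableSet (E n)) (N : ℕ) (a b : ℝ) :
    IntegrableOn (T3cnt E N) (Set.Icc a b) ∧
    ∫ t in Set.Icc a b, T3cnt E N t = ∑ n ∈ range N, (volume (Set.Icc a b ∩ E n)).toReal := by
  have h0 : T3cnt E N = fun t => ∑ n ∈ range N, (E n).indicator (fun _ => (1 : ℝ)) t :=
    funext fun t => T3cnt_eq E N t
  have h1 : ∀ n ∈ range N, Integrable ((E n).indicator (fun _ => (1 : ℝ)))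
      (volume.restrict (Set.Icc a b)) := fun n _ => (integrable_const 1).indicator (hE n)
  rw [h0]
  refine ⟨integrable_finset_sum _ h1, ?_⟩
  rw [integral_finset_sum _ h1]
  refine Finset.sum_congr rfl fun n _ => ?_
  rw [setIntegral_indicator (hE n), setIntegral_const]
  simp [Measure.real]

theorem T3_main (E : ℕ → Set ℝ) (κ : ℝ) (hE : ∀ n, MeasurableSet (E n))
    (hyp : ∀ a b ε : ℝ, 0 < a → a < b → 0 < ε → ∃ n₀ : ℕ, ∀ n : ℕ, n₀ ≤ n →
      ENNReal.ofReal ((κ - ε) * (b - a)) ≤ volume (Set.Icc a b ∩ E n)) (η : ℝ) (hη : 0 < η)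
    (N₀ : ℕ) :
    volume {t : ℝ | 0 < t ∧ ∀ N, N₀ ≤ N → 1 ≤ N → T3cnt E N t < (κ - η) * N} = 0 := by
  by_contra hne
  set B : Set ℝ := {t : ℝ | 0 < t ∧ ∀ N, N₀ ≤ N → 1 ≤ N → T3cnt E N t < (κ - η) * N} with hBdef
  have hB : MeasurableSet B := by
    have : B = Set.Ioi 0 ∩ ⋂ N : ℕ, ⋂ _ : N₀ ≤ N, ⋂ _ : 1 ≤ N,
        {t : ℝ | T3cnt E N t < (κ - η) * N} := by
      ext t
      simp [hBdef]
    rw [this]
    refine measurableSet_Ioi.inter (MeasurableSet.iInter fun N => MeasurableSet.iInter fun _ =>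
      MeasurableSet.iInter fun _ => ?_)
    exact measurableSet_lt (T3cnt_meas hE N) measurable_const
  have hd := Besicovitch.ae_tendsto_measure_inter_div volume B
  rw [ae_restrict_iff' hB] at hd
  obtain ⟨x, hxB, hx⟩ : ∃ x ∈ B, Tendsto (fun r => volume (B ∩ Metric.closedBall x r) /
      volume (Metric.closedBall x r)) (𝓝[>] 0) (𝓝 1) := by
    by_contra hcon
    push Not at hcon
    apply hne
    refine measure_mono_null (fun y hy => ?_) (ae_iff.1 hd)
    intro h
    exact hcon y hy (h hy)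
  set Cc : ℝ := |κ - η| + 1 with hCc
  have hCpos : 0 < Cc := by positivity
  set θ : ℝ := η / (4 * Cc) with hθ
  have hθpos : 0 < θ := by positivity
  have hθC : Cc * θ = η / 4 := by
    rw [hθ]
    field_simp
  have hx2 := (ENNReal.tendsto_toReal ENNReal.one_ne_top).comp hx
  rw [ENNReal.toReal_one] at hx2
  have hx3 := (tendsto_order.1 hx2).1 (1 - θ) (by linarith)
  have hx4 : ∀ᶠ r : ℝ in 𝓝[>] 0, r < x := by
    refine mem_nhdsWithin_of_mem_nhds ?_
    exact Iio_mem_nhds hxB.1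
  have hx5 : ∀ᶠ r : ℝ in 𝓝[>] 0, 0 < r := self_mem_nhdsWithin
  obtain ⟨r, hr1, hr2, hr3⟩ := (hx3.and (hx4.and hx5)).exists
  simp only [Function.comp_apply, Real.closedBall_eq_Icc, ENNReal.toReal_div] at hr1
  set a := x - r with ha
  set b := x + r with hb
  have ha0 : 0 < a := by linarith
  have hab : a < b := by linarith
  have hL : (volume (Set.Icc a b)).toReal = b - a := by
    rw [Real.volume_Icc, ENNReal.toReal_ofReal (by linarith)]
  set L := b - a with hLdef
  have hLpos : 0 < L := by linarith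
  rw [hL, lt_div_iff₀ hLpos] at hr1
  have hfin : ∀ s : Set ℝ, volume (Set.Icc a b ∩ s) ≠ ⊤ := fun s =>
    ne_top_of_le_ne_top (by simp) (measure_mono Set.inter_subset_left)
  set v1 := (volume (Set.Icc a b ∩ B)).toReal with hv1
  have hr1' : (1 - θ) * L < v1 := by
    rw [hv1, Set.inter_comm]
    exact hr1
  set v2 := (volume (Set.Icc a b \ B)).toReal with hv2
  have hv12 : v1 + v2 = L := by
    have h1 := measure_inter_add_diff (μ := volume) (Set.Icc a b) hB
    have h2 : volume (Set.Icc a b \ B) ≠ ⊤ :=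
      ne_top_of_le_ne_top (by simp) (measure_mono Set.diff_subset)
    rw [← hL, ← h1, ENNReal.toReal_add (hfin B) h2]
  have hv2' : v2 ≤ θ * L := by nlinarith
  have hv20 : 0 ≤ v2 := ENNReal.toReal_nonneg
  obtain ⟨n₀, hn₀⟩ := hyp a b (η / 4) ha0 hab (by positivity)
  have hlow : ∀ n, n₀ ≤ n → (κ - η / 4) * L ≤ (volume (Set.Icc a b ∩ E n)).toReal := by
    intro n hn
    exact (ENNReal.ofReal_le_iff_le_toReal (hfin _)).1 (hn₀ n hn)
  obtain ⟨N, hN⟩ := exists_nat_gt ((n₀ : ℝ) * |κ - η / 4| * 2 / η + N₀ + n₀ + 1)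
  have hq : 0 ≤ (n₀ : ℝ) * |κ - η / 4| * 2 / η := by positivity
  have hN0 : N₀ ≤ N := by
    have : (N₀ : ℝ) ≤ N := by
      have : (0 : ℝ) ≤ n₀ := Nat.cast_nonneg _
      linarith
    exact_mod_cast this
  have hNn : n₀ ≤ N := by
    have : (n₀ : ℝ) ≤ N := by
      have : (0 : ℝ) ≤ N₀ := Nat.cast_nonneg _
      linarith
    exact_mod_cast this
  have hN1 : 1 ≤ N := by
    have : (1 : ℝ) ≤ N := by
      have h1 : (0 : ℝ) ≤ N₀ := Nat.cast_nonneg _
      have h2 : (0 : ℝ) ≤ n₀ := Nat.cast_nonneg _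
      linarith
    exact_mod_cast this
  have hNbig : (n₀ : ℝ) * |κ - η / 4| * 2 / η < N := by
    have h1 : (0 : ℝ) ≤ N₀ := Nat.cast_nonneg _
    have h2 : (0 : ℝ) ≤ n₀ := Nat.cast_nonneg _
    linarith
  rw [div_lt_iff₀ hη] at hNbig
  obtain ⟨hint, hsum⟩ := T3_int hE N a b
  -- lower bound
  have hlower : ((N : ℝ) - n₀) * ((κ - η / 4) * L) ≤
      ∑ n ∈ range N, (volume (Set.Icc a b ∩ E n)).toReal := by
    have h1 : ∑ n ∈ Finset.Ico n₀ N, (κ - η / 4) * L ≤
        ∑ n ∈ Finset.Ico n₀ N, (volume (Set.Icc a b ∩ E n)).toReal :=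
      Finset.sum_le_sum fun n hn => hlow n (Finset.mem_Ico.1 hn).1
    rw [Finset.sum_const, Nat.card_Ico, nsmul_eq_mul, Nat.cast_sub hNn] at h1
    refine h1.trans ?_
    refine Finset.sum_le_sum_of_subset_of_nonneg ?_ fun n _ _ => ENNReal.toReal_nonneg
    intro n hn
    exact Finset.mem_range.2 (Finset.mem_Ico.1 hn).2
  -- upper bound
  have hupper : ∫ t in Set.Icc a b, T3cnt E N t ≤ (κ - η) * N * v1 + N * v2 := by
    rw [← integral_inter_add_diff hB hint]
    refine add_le_add ?_ ?_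
    · have h1 : ∫ t in Set.Icc a b ∩ B, T3cnt E N t ≤ ∫ _t in Set.Icc a b ∩ B, (κ - η) * N := by
        refine setIntegral_mono_on (hint.mono_set Set.inter_subset_left) ?_
          (measurableSet_Icc.inter hB) fun t ht => ?_
        · exact integrableOn_const (hfin B)
        · exact (ht.2.2 N hN0 hN1).le
      refine h1.trans (le_of_eq ?_)
      rw [setIntegral_const, smul_eq_mul]
      simp only [Measure.real]
      rw [← hv1]
      ring
    · have h2 : volume (Set.Icc a b \ B) ≠ ⊤ :=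
        ne_top_of_le_ne_top (by simp) (measure_mono Set.diff_subset)
      have h1 : ∫ t in Set.Icc a b \ B, T3cnt E N t ≤ ∫ _t in Set.Icc a b \ B, (N : ℝ) := by
        refine setIntegral_mono_on (hint.mono_set Set.diff_subset) ?_
          (measurableSet_Icc.diff hB) fun t ht => ?_
        · exact integrableOn_const h2
        · exact T3cnt_le E N t
      refine h1.trans (le_of_eq ?_)
      rw [setIntegral_const, smul_eq_mul]
      simp only [Measure.real]
      rw [← hv2]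
      ring
  rw [hsum] at hupper
  have hkey := hlower.trans hupper
  have hNpos : (0 : ℝ) < N := by exact_mod_cast hN1
  have h3 : (κ - η) * v1 ≤ (κ - η) * L + |κ - η| * (θ * L) := by
    have h4 : v1 = L - v2 := by linarith
    rw [h4]
    have h5 : -(κ - η) * v2 ≤ |κ - η| * v2 :=
      mul_le_mul_of_nonneg_right (neg_le_abs _) hv20
    have h6 : |κ - η| * v2 ≤ |κ - η| * (θ * L) :=
      mul_le_mul_of_nonneg_left hv2' (abs_nonneg _)
    linarith
  have h7 : (κ - η) * v1 + v2 ≤ (κ - η) * L + η / 4 * L := by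
    have h8 : |κ - η| * (θ * L) + θ * L = η / 4 * L := by
      rw [← hθC, hCc]
      ring
    linarith
  have h9 : (κ - η) * N * v1 + N * v2 ≤ N * ((κ - η) * L + η / 4 * L) := by
    have := mul_le_mul_of_nonneg_left h7 hNpos.le
    linarith
  have h10 : (n₀ : ℝ) * ((κ - η / 4) * L) ≤ n₀ * |κ - η / 4| * L := by
    have h11 : (κ - η / 4) * L ≤ |κ - η / 4| * L :=
      mul_le_mul_of_nonneg_right (le_abs_self _) hLpos.le
    have := mul_le_mul_of_nonneg_left h11 (Nat.cast_nonneg (α := ℝ) n₀)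
    linarith
  have h12 : (N : ℝ) * (η / 2) * L ≤ n₀ * |κ - η / 4| * L := by
    nlinarith
  have h13 := le_of_mul_le_mul_right h12 hLpos
  linarith

theorem t_T3 : S_T3 := by
  intro E κ hE hyp
  have hmain : ∀ j N₀ : ℕ, ∀ᵐ t : ℝ, ¬ (0 < t ∧ ∀ N, N₀ ≤ N → 1 ≤ N →
      T3cnt E N t < (κ - 1 / ((j : ℝ) + 1)) * N) := by
    intro j N₀
    rw [ae_iff]
    simp only [not_not]
    exact T3_main E κ hE hyp _ (by positivity) N₀
  have hall : ∀ᵐ t : ℝ, ∀ j N₀ : ℕ, ¬ (0 < t ∧ ∀ N, N₀ ≤ N → 1 ≤ N →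
      T3cnt E N t < (κ - 1 / ((j : ℝ) + 1)) * N) :=
    ae_all_iff.2 fun j => ae_all_iff.2 fun N₀ => hmain j N₀
  filter_upwards [hall] with t ht hpos η hη N₀
  obtain ⟨j, hj⟩ := exists_nat_one_div_lt hη
  have h := ht j N₀
  by_contra hcon
  apply h
  refine ⟨hpos, fun N h1 h2 => ?_⟩
  by_contra h3
  apply hcon
  refine ⟨N, h1, h2, ?_⟩
  have h4 := not_lt.1 h3
  refine le_trans ?_ h4
  exact mul_le_mul_of_nonneg_right (by linarith) (Nat.cast_nonneg N)

end Pool.Agent.H14R3.MB
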