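import Pool.Agent.H14R3.MB.Props

set_option autoImplicit false

open Finset

namespace Pool.Agent.H14R3.MB

/-- constants times logarithms are small -/
theorem t4_small (D : ℝ) : ∃ X₁ : ℕ, ∀ X : ℕ, X₁ ≤ X → D * Real.log ((2 * X : ℕ) : ℝ) + D ≤ X / 8 := by
  have h1 : Filter.Tendsto (fun x : ℝ => Real.log x / x) Filter.atTop (nhds 0) :=
    Real.isLittleO_log_id_atTop.tendsto_div_nhds_zero
  have hD : 0 < 1 / (32 * (|D| + 1)) := by positivity
  have h2 := (h1.eventually (gt_mem_nhds hD)).and (Filter.eventually_ge_atTop (max 1 (32 * (|D| + 1))))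
  obtain ⟨Y, hY⟩ := Filter.eventually_atTop.1 h2
  refine ⟨⌈Y⌉₊ + 1, fun X hX => ?_⟩
  have h3 : Y ≤ ((2 * X : ℕ) : ℝ) := by
    have : (⌈Y⌉₊ : ℝ) + 1 ≤ X := by exact_mod_cast hX
    have := Nat.le_ceil Y
    push_cast
    have h0 : (0 : ℝ) ≤ X := Nat.cast_nonneg X
    linarith
  obtain ⟨h4, h5⟩ := hY _ h3
  have h6 : (1 : ℝ) ≤ ((2 * X : ℕ) : ℝ) := (le_max_left _ _).trans h5
  have h7 : 32 * (|D| + 1) ≤ ((2 * X : ℕ) : ℝ) := (le_max_right _ _).trans h5
  have h8 : 0 < |D| + 1 := by positivity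
  rw [div_lt_iff₀ (by linarith)] at h4
  have h9 : 0 ≤ Real.log ((2 * X : ℕ) : ℝ) := Real.log_nonneg h6
  have h10 : (|D| + 1) * Real.log ((2 * X : ℕ) : ℝ) ≤ ((2 * X : ℕ) : ℝ) / 32 := by
    have : (|D| + 1) * (1 / (32 * (|D| + 1)) * ((2 * X : ℕ) : ℝ)) = ((2 * X : ℕ) : ℝ) / 32 := by
      field_simp
    nlinarith
  have h11 : D * Real.log ((2 * X : ℕ) : ℝ) ≤ (|D| + 1) * Real.log ((2 * X : ℕ) : ℝ) :=
    mul_le_mul_of_nonneg_right (by linarith [le_abs_self D]) h9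
  have h12 : D ≤ |D| + 1 := by linarith [le_abs_self D]
  push_cast at *
  linarith

open Classical in
theorem t_T4 (h : ∀ (f : Polynomial ℤ), Irreducible f → 0 < f.natDegree →
  ∀ C δ ε : ℝ, 0 < δ → δ ≤ 1 / 10 → 0 < ε →
  ∃ J : ℕ, 1 ≤ J ∧ ∃ N₀ : ℕ, ∀ N : ℕ, N₀ ≤ N → ∀ A : Fin J → Finset ℤ,
    (∀ i j, i ≠ j → Disjoint (A i) (A j)) →
    (∀ j, ∀ a ∈ A j, |(a : ℝ)| ≤ (N : ℝ) ^ C) → (∀ j, ((A j).card : ℝ) ≤ C * Real.log N) →
    (((range N).filter (fun n : ℕ => ¬ ∃ j, ∀ a ∈ A j, ∃ p : ℕ, p.Prime ∧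
      (p : ℝ) ≤ (N : ℝ) ^ δ ∧ (p : ℤ) ∣ f.eval ((n : ℤ) + a) ∧
      p < (f.eval ((n : ℤ) + a)).natAbs)).card : ℝ) ≤ ε * N) : S_T4 := by
  intro C
  set C1 : ℝ := |C| + 10 with hC1
  have hC10 : 0 ≤ |C| := abs_nonneg C
  obtain ⟨J, hJ, N₀, hN⟩ := h Polynomial.X Polynomial.irreducible_X (by simp) C1 (1 / 10) (1 / 8)
    (by norm_num) le_rfl (by norm_num)
  obtain ⟨X₁, hX₁⟩ := t4_small ((J + 2) * C1)
  refine ⟨1 / (2 * J), by positivity, max (max N₀ X₁) 10, (by norm_num : 1 ≤ 10).trans (le_max_right _ _),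
    fun X hX => ?_⟩
  have hXN : N₀ ≤ X := ((le_max_left _ _).trans (le_max_left _ _)).trans hX
  have hXX : X₁ ≤ X := ((le_max_right _ _).trans (le_max_left _ _)).trans hX
  have hX10 : 10 ≤ X := (le_max_right _ _).trans hX
  have hJ1 : (1 : ℝ) ≤ J := by exact_mod_cast hJ
  set N : ℕ := 2 * X with hNd
  have hN20 : (20 : ℝ) ≤ N := by
    have : 20 ≤ N := by omega
    exact_mod_cast this
  set L : ℝ := Real.log (N : ℝ) with hL
  have hL1 : 1 ≤ L := by
    rw [hL, Real.le_log_iff_exp_le (by linarith)]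
    have := Real.exp_one_lt_d9
    linarith
  have hsm : (J + 2) * C1 * L + (J + 2) * C1 ≤ X / 8 := hX₁ X hXX
  set H : ℕ := ⌈(|C| + 2) * L⌉₊ + 3 with hH
  have hH1 : (|C| + 2) * L + 3 ≤ H := by
    rw [hH]; push_cast
    linarith [Nat.le_ceil ((|C| + 2) * L)]
  have hH2 : (H : ℝ) ≤ C1 * L := by
    have := (Nat.ceil_lt_add_one (show 0 ≤ (|C| + 2) * L by positivity)).le
    rw [hH]; push_cast
    rw [hC1]
    nlinarith
  have hJH : ((J : ℝ) + 2) * H ≤ X / 8 := by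
    have h0 : 0 ≤ (J : ℝ) + 2 := by positivity
    have := mul_le_mul_of_nonneg_left hH2 h0
    have h2 : 0 ≤ ((J : ℝ) + 2) * C1 := by positivity
    linarith
  have hJH' : 8 * ((J + 2) * H) ≤ X := by
    have : (8 : ℝ) * ((J + 2) * H) ≤ X := by linarith
    exact_mod_cast this
  have key := hN N (hXN.trans (by omega)) (fun j => Finset.Ioc ((j : ℕ) * H : ℤ) (((j : ℕ) + 1) * H : ℤ))
    (by
      intro i j hij
      rw [Finset.disjoint_left]
      intro a ha ha'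
      rw [Finset.mem_Ioc] at ha ha'
      rcases lt_trichotomy i j with hlt | heq | hgt
      · have : ((i : ℕ) : ℤ) + 1 ≤ (j : ℕ) := by exact_mod_cast hlt
        have : (((i : ℕ) : ℤ) + 1) * H ≤ (j : ℕ) * H := mul_le_mul_of_nonneg_right this (by positivity)
        linarith [ha.2, ha'.1]
      · exact hij heq
      · have : ((j : ℕ) : ℤ) + 1 ≤ (i : ℕ) := by exact_mod_cast hgt
        have : (((j : ℕ) : ℤ) + 1) * H ≤ (i : ℕ) * H := mul_le_mul_of_nonneg_right this (by positivity)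
        linarith [ha.1, ha'.2])
    (by
      intro j a ha
      rw [Finset.mem_Ioc] at ha
      have h1 : (0 : ℤ) ≤ a := by
        have : (0 : ℤ) ≤ (j : ℕ) * H := by positivity
        linarith [ha.1]
      have h2 : (a : ℝ) ≤ ((j : ℕ) + 1) * H := by exact_mod_cast ha.2
      have h3 : (((j : ℕ) : ℝ) + 1) ≤ J := by exact_mod_cast j.2
      have h4 : (0 : ℝ) ≤ a := by exact_mod_cast h1
      rw [abs_of_nonneg h4]
      have h5 : (((j : ℕ) : ℝ) + 1) * H ≤ (J + 2) * H :=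
        mul_le_mul_of_nonneg_right (by linarith) (Nat.cast_nonneg H)
      have h6 : (X : ℝ) / 8 ≤ N := by
        rw [hNd]; push_cast
        have : (0 : ℝ) ≤ X := Nat.cast_nonneg X
        linarith
      have h7 : (N : ℝ) ≤ (N : ℝ) ^ C1 := by
        have := Real.rpow_le_rpow_of_exponent_le (show (1 : ℝ) ≤ N by linarith)
          (show (1 : ℝ) ≤ C1 by rw [hC1]; linarith)
        rwa [Real.rpow_one] at this
      linarith)
    (by
      intro j
      rw [Int.card_Ioc]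
      have : ((((j : ℕ) + 1) * H - (j : ℕ) * H : ℤ)).toNat = H := by
        have : ((((j : ℕ) + 1) * H - (j : ℕ) * H : ℤ)) = (H : ℤ) := by ring
        rw [this]; rfl
      rw [this]
      exact hH2)
  -- counting
  set Bad := (range N).filter (fun n : ℕ => ¬ ∃ j : Fin J, ∀ a ∈ Finset.Ioc ((j : ℕ) * H : ℤ) (((j : ℕ) + 1) * H : ℤ),
      ∃ p : ℕ, p.Prime ∧ (p : ℝ) ≤ (N : ℝ) ^ (1 / 10 : ℝ) ∧ (p : ℤ) ∣ Polynomial.X.eval ((n : ℤ) + a) ∧
      p < (Polynomial.X.eval ((n : ℤ) + a)).natAbs) with hBad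
  set MM := (Ico X (2 * X)).filter (fun n => n ∈ NF C) with hMM
  set Gd := Ico X (2 * X - (J + 1) * H - 1) with hGd
  have hsub : Gd ⊆ Bad ∪ (Finset.univ : Finset (Fin J)).biUnion
      (fun j => (Ico X (2 * X)).filter (fun n => n + (j : ℕ) * H + 1 ∈ MM)) := by
    intro n hn
    rw [hGd, mem_Ico] at hn
    rw [mem_union]
    by_cases hb : n ∈ Bad
    · exact Or.inl hb
    right
    rw [hBad, mem_filter, not_and, not_not] at hb
    obtain ⟨j, hj⟩ := hb (by rw [mem_range]; omega)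
    rw [mem_biUnion]
    refine ⟨j, mem_univ _, ?_⟩
    rw [mem_filter, mem_Ico]
    refine ⟨⟨hn.1, by omega⟩, ?_⟩
    have hjJ : (j : ℕ) + 1 ≤ J := j.2
    have hjH : ((j : ℕ) + 1) * H ≤ J * H := Nat.mul_le_mul_right H hjJ
    have e1 : ((j : ℕ) + 1) * H = (j : ℕ) * H + H := by ring
    have e2 : (J + 1) * H = J * H + H := by ring
    rw [hMM, mem_filter, mem_Ico]
    refine ⟨⟨by omega, by omega⟩, ?_⟩
    intro p hp hp1 hp2
    have hlog : Real.log ((((n + (j : ℕ) * H + 1 : ℕ)) : ℝ) + 1) ≤ L := by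
      apply Real.log_le_log
      · positivity
      · have : (n + (j : ℕ) * H + 1) + 1 ≤ N := by omega
        exact_mod_cast this
    have hlog0 : 0 ≤ Real.log ((((n + (j : ℕ) * H + 1 : ℕ)) : ℝ) + 1) := by
      apply Real.log_nonneg
      have : (0 : ℝ) ≤ ((n + (j : ℕ) * H + 1 : ℕ) : ℝ) := Nat.cast_nonneg _
      linarith
    have hCl : C * Real.log ((((n + (j : ℕ) * H + 1 : ℕ)) : ℝ) + 1) ≤ |C| * L :=
      (mul_le_mul_of_nonneg_right (le_abs_self C) hlog0).trans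
        (mul_le_mul_of_nonneg_left hlog hC10)
    have hpr : (p : ℝ) ≤ n + ((j : ℕ) + 1) * H := by
      have e3 : (((n + (j : ℕ) * H + 1 : ℕ)) : ℝ) = n + (j : ℕ) * H + 1 := by push_cast; ring
      rw [e3] at hp2 hCl
      have e4 : (n : ℝ) + ((j : ℕ) + 1) * H = n + (j : ℕ) * H + H := by ring
      rw [e4]
      have : |C| * L + 2 ≤ H := by nlinarith
      linarith
    have hpn : p ≤ n + ((j : ℕ) + 1) * H := by exact_mod_cast hpr
    obtain ⟨q, hq, -, hqd, hqlt⟩ := hj ((p : ℤ) - n) (by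
      rw [Finset.mem_Ioc]
      constructor
      · have : ((n + (j : ℕ) * H + 1 : ℕ) : ℤ) ≤ p := by exact_mod_cast hp1
        push_cast at this
        linarith
      · have : (p : ℤ) ≤ ((n + ((j : ℕ) + 1) * H : ℕ) : ℤ) := by exact_mod_cast hpn
        push_cast at this
        linarith)
    rw [Polynomial.eval_X] at hqd hqlt
    have e5 : (n : ℤ) + ((p : ℤ) - n) = p := by ring
    rw [e5] at hqd hqlt
    have hqd' : q ∣ p := by exact_mod_cast hqd
    have hqlt' : q < p := by simpa using hqlt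
    rcases (Nat.dvd_prime hp).1 hqd' with h1 | h1
    · exact hq.one_lt.ne' h1
    · omega
  have hcard1 := (Finset.card_le_card hsub).trans (Finset.card_union_le _ _)
  have hcard2 : ((Finset.univ : Finset (Fin J)).biUnion
      (fun j => (Ico X (2 * X)).filter (fun n => n + (j : ℕ) * H + 1 ∈ MM))).card ≤ J * MM.card := by
    refine Finset.card_biUnion_le.trans ?_
    have : ∀ j ∈ (Finset.univ : Finset (Fin J)),
        ((Ico X (2 * X)).filter (fun n => n + (j : ℕ) * H + 1 ∈ MM)).card ≤ MM.card := by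
      intro j _
      refine Finset.card_le_card_of_injOn (fun n => n + (j : ℕ) * H + 1) ?_ ?_
      · intro n hn
        have := (mem_filter.1 (Finset.mem_coe.1 hn)).2
        exact Finset.mem_coe.2 this
      · intro a _ b _ hab
        simpa using hab
    refine (Finset.sum_le_card_nsmul _ _ _ this).trans ?_
    simp
  have hG : Gd.card = 2 * X - (J + 1) * H - 1 - X := by rw [hGd, Nat.card_Ico]
  have e6 : (J + 2) * H = (J + 1) * H + H := by ring
  have hH3 : 3 ≤ H := by omega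
  have hG2 : 7 * X ≤ 8 * Gd.card := by rw [hG]; omega
  have hB : (Bad.card : ℝ) ≤ 1 / 8 * N := key
  have hc3 : (Gd.card : ℝ) ≤ Bad.card + J * MM.card := by
    have := hcard1.trans (Nat.add_le_add_left hcard2 _)
    exact_mod_cast this
  have hG3 : 7 * (X : ℝ) ≤ 8 * Gd.card := by exact_mod_cast hG2
  have hNX : (N : ℝ) = 2 * X := by rw [hNd]; push_cast; ring
  rw [hNX] at hB
  have hfin : (X : ℝ) / 2 ≤ J * MM.card := by
    have : (0 : ℝ) ≤ X := Nat.cast_nonneg X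
    linarith
  rw [div_mul_eq_mul_div, one_mul, div_le_iff₀ (by positivity)]
  linarith

end Pool.Agent.H14R3.MB
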