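import Pool.Agent.H14R3.MB.Props

/-! T5: the `n`-th prime is larger than every multiple of `n`. -/

set_option autoImplicit false

open Finset MeasureTheory Filter

namespace Pool.Agent.H14R3.MB

theorem t_T5 : S_T5 := by
  intro K
  have h1 := Chebyshev.eventually_primeCounting_le (ε := 1) one_pos
  have h2 : ∀ᶠ x : ℝ in atTop, max K 0 * (Real.log 4 + 1) ≤ Real.log x :=
    Real.tendsto_log_atTop.eventually_ge_atTop _
  obtain ⟨X, hX⟩ := (h1.and (h2.and (eventually_gt_atTop (1 : ℝ)))).exists_forall_of_atTop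
  refine ⟨⌈X⌉₊, fun n hn => ?_⟩
  have hq : (X : ℝ) ≤ (Nat.nth Nat.Prime n : ℝ) := by
    have h3 : X ≤ n := (Nat.le_ceil X).trans (by exact_mod_cast hn)
    have h4 := Nat.add_two_le_nth_prime n
    have h5 : ((n + 2 : ℕ) : ℝ) ≤ (Nat.nth Nat.Prime n : ℝ) := by exact_mod_cast h4
    push_cast at h5
    linarith
  obtain ⟨a, b, c⟩ := hX _ hq
  rw [Nat.floor_natCast] at a
  have hpi : Nat.primeCounting (Nat.nth Nat.Prime n) = n + 1 := by
    rw [Nat.primeCounting_eq_primeCounting'_succ]
    unfold Nat.primeCounting'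
    exact Nat.count_nth_succ_of_infinite Nat.infinite_setOf_prime n
  rw [hpi] at a
  set q : ℝ := (Nat.nth Nat.Prime n : ℝ) with hqd
  have hlog : 0 < Real.log q := Real.log_pos c
  have hK0 : 0 ≤ max K 0 := le_max_right _ _
  have hn1 : (0 : ℝ) ≤ (n : ℝ) + 1 := by positivity
  have a' : (n : ℝ) + 1 ≤ (Real.log 4 + 1) * q / Real.log q := by exact_mod_cast a
  calc K * ((n : ℝ) + 1) ≤ max K 0 * ((n : ℝ) + 1) :=
        mul_le_mul_of_nonneg_right (le_max_left _ _) hn1
    _ ≤ max K 0 * ((Real.log 4 + 1) * q / Real.log q) := mul_le_mul_of_nonneg_left a' hK0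
    _ = (max K 0 * (Real.log 4 + 1)) * (q / Real.log q) := by ring
    _ ≤ Real.log q * (q / Real.log q) := by
        apply mul_le_mul_of_nonneg_right b
        positivity
    _ = q := by field_simp

end Pool.Agent.H14R3.MB
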