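import Pool.Agent.H14R3.MB.Props

/-! Task T6 of helper14 (by helper135): almost every exponent gives almost every base. -/

set_option autoImplicit false

open Finset MeasureTheory

namespace Pool.Agent.H14R3.MB

theorem t_T6 : S_T6 := by
  intro P h
  rw [ae_iff] at h ⊢
  have h2 : volume (Real.exp '' {t : ℝ | ¬ (0 < t → P (Real.exp t))}) = 0 :=
    MeasureTheory.addHaar_image_eq_zero_of_differentiableOn_of_addHaar_eq_zero volume
      (Real.differentiable_exp.differentiableOn) h
  refine measure_mono_null ?_ h2
  intro α hα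
  have hα' : ¬ (1 < α → P α) := hα
  rw [Classical.not_imp] at hα'
  obtain ⟨h1, h3⟩ := hα'
  refine ⟨Real.log α, ?_, Real.exp_log (by linarith)⟩
  show ¬ (0 < Real.log α → P (Real.exp (Real.log α)))
  rw [Real.exp_log (by linarith)]
  exact fun h4 => h3 (h4 (Real.log_pos h1))

end Pool.Agent.H14R3.MB
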