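import Pool.Agent.H14R3.MB.Props

set_option autoImplicit false

open Finset MeasureTheory

namespace Pool.Agent.H14R3.MB

theorem t_T7 (h5 : S_T5) : S_T7 := by
  classical
  intro M m ε Λ K t hK ht
  obtain ⟨n0, hn0⟩ := h5 (K * t)
  refine ⟨n0, fun n hn hNP => ?_⟩
  have hx : Real.exp (((n + 1 : ℕ) : ℝ) * t) = Real.exp t ^ (n + 1) := Real.exp_nat_mul t (n + 1)
  have hlogx : Real.log (Real.exp t ^ (n + 1)) = ((n : ℝ) + 1) * t := by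
    rw [← hx, Real.log_exp]
    push_cast
    ring
  rw [hx] at hNP
  have hx1 : 1 ≤ Real.exp t ^ (n + 1) := one_le_pow₀ (Real.one_le_exp ht.le)
  generalize Real.exp t ^ (n + 1) = x at hNP hlogx hx1 ⊢
  have hk1 : (⌊x⌋₊ : ℝ) ≤ x := Nat.floor_le (by linarith)
  have hk2 : x < ⌊x⌋₊ + 1 := Nat.lt_floor_add_one x
  have hk0 : 1 ≤ ⌊x⌋₊ := Nat.le_floor (by exact_mod_cast hx1)
  have hk0' : (1 : ℝ) ≤ ⌊x⌋₊ := by exact_mod_cast hk0
  have hlog0 : 0 ≤ K * Real.log ⌊x⌋₊ := mul_nonneg hK.le (Real.log_nonneg hk0')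
  have hlog : K * Real.log ⌊x⌋₊ ≤ Nat.nth Nat.Prime n := by
    have h1 : Real.log ⌊x⌋₊ ≤ Real.log x := Real.log_le_log (by linarith) hk1
    calc K * Real.log ⌊x⌋₊ ≤ K * Real.log x := mul_le_mul_of_nonneg_left h1 hK.le
      _ = K * t * ((n : ℝ) + 1) := by rw [hlogx]; ring
      _ ≤ _ := hn0 n hn
  refine le_trans hNP (Finset.card_le_card ?_)
  intro p hp
  rw [Finset.mem_filter, Finset.mem_Ioc] at hp
  obtain ⟨⟨h1, h2⟩, h3⟩ := hp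
  refine Finset.mem_filter.2 ⟨Finset.mem_Icc.2 ⟨Nat.ceil_le.2 ?_, Nat.le_floor ?_⟩, h3⟩
  · have h4 : ((⌊x⌋₊ + 1 : ℕ) : ℝ) ≤ p := by exact_mod_cast h1
    push_cast at h4
    linarith
  · have h4 : (p : ℝ) ≤ ((⌊x⌋₊ + ⌊K * Real.log ⌊x⌋₊⌋₊ : ℕ) : ℝ) := by exact_mod_cast h2
    push_cast at h4
    have h5 := Nat.floor_le hlog0
    linarith

end Pool.Agent.H14R3.MB
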