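import Pool.Agent.H14R3.MB.Props

set_option autoImplicit false

namespace Pool.Agent.H14R3.MB

theorem t_T8 : S_T8 := by
  intro C t ht hC
  refine ⟨0, fun n _ hN p hp h1 h2 => ?_⟩
  have hx : Real.exp (((n + 1 : ℕ) : ℝ) * t) = Real.exp t ^ (n + 1) := Real.exp_nat_mul t (n + 1)
  rw [hx] at hN
  obtain ⟨x, hx0⟩ : ∃ x : ℝ, x = Real.exp t ^ (n + 1) := ⟨_, rfl⟩
  rw [← hx0] at hN h1 h2
  have hpos : 0 < x := by rw [hx0]; positivity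
  have hfl : ((⌊x⌋₊ : ℕ) : ℝ) ≤ x := Nat.floor_le hpos.le
  have hfl2 : x < ((⌊x⌋₊ : ℕ) : ℝ) + 1 := Nat.lt_floor_add_one x
  refine hN p hp ?_ ?_
  · have : ((⌊x⌋₊ : ℕ) : ℝ) ≤ (p : ℝ) := hfl.trans h1
    exact_mod_cast this
  · have hlog : Real.log x ≤ Real.log (((⌊x⌋₊ : ℕ) : ℝ) + 1) := Real.log_le_log hpos hfl2.le
    have := mul_le_mul_of_nonneg_left hlog hC
    linarith

end Pool.Agent.H14R3.MB
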